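import Pool.Agent.Q168.MY.Meyer
import Pool.Agent.Q53.LFT.HilbMain

/-!
# Rank five: a class with the discriminant twice a square
-/

set_option autoImplicit false

namespace Pool.Agent.Q53.LFM

open Pool.Agent.Q168.TW Pool.Agent.Q168.MY Pool.Agent.Q168.CF4

open Pool.Agent.Q53.LFY Pool.Agent.Q53.LFY.CubLat Pool.Agent.Q53.LFA Pool.Agent.Q53.LFB
open Pool.Agent.Q53.LFT

variable {H : CubLat}

/-- If `A(X)` has at least rank five, then some Hodge class has the discriminant `2 k^2`. -/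
theorem exists_twice_square (hH : H.IsCubic) (hr : 5 ≤ Module.finrank ℤ H.hodge) :
    ∃ (v : Fin 23 → ℤ) (k : ℤ), H.IsHodge v ∧ k ≠ 0 ∧ H.disc v = 2 * k ^ 2 := by
  obtain ⟨v₁, hv₁, h1⟩ := exists_ker (n := 1) (by omega) ![hL H]
  obtain ⟨v₂, hv₂, h2⟩ := exists_ker (n := 2) (by omega) ![hL H, DL hH v₁]
  obtain ⟨v₃, hv₃, h3⟩ := exists_ker (n := 3) (by omega) ![hL H, DL hH v₁, DL hH v₂]
  obtain ⟨v₄, hv₄, h4⟩ := exists_ker (n := 4) (by omega) ![hL H, DL hH v₁, DL hH v₂, DL hH v₃]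
  have d1 := disc_pos_of hH hv₁ (h1 0)
  have d2 := disc_pos_of hH hv₂ (h2 0)
  have d3 := disc_pos_of hH hv₃ (h3 0)
  have d4 := disc_pos_of hH hv₄ (h4 0)
  have e12 : D H v₁ v₂ = 0 := h2 1
  have e13 : D H v₁ v₃ = 0 := h3 1
  have e23 : D H v₂ v₃ = 0 := h3 2
  have e14 : D H v₁ v₄ = 0 := h4 1
  have e24 : D H v₂ v₄ = 0 := h4 2
  have e34 : D H v₃ v₄ = 0 := h4 3
  obtain ⟨r1, r2, r3, r4, t, ht, he⟩ := meyer (a1 := 2 * H.disc v₁) (a2 := 2 * H.disc v₂)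
    (a3 := 2 * H.disc v₃) (a4 := 2 * H.disc v₄) (by omega) (by omega) (by omega) (by omega)
  have hev : (2 : ℤ) ∣ t ^ 2 :=
    ⟨H.disc v₁ * r1 ^ 2 + H.disc v₂ * r2 ^ 2 + H.disc v₃ * r3 ^ 2 + H.disc v₄ * r4 ^ 2, by
      rw [← he]; ring⟩
  obtain ⟨k, hk⟩ := Int.prime_two.dvd_of_dvd_pow hev
  refine ⟨(1 : ℤ) • (r1 • (v₁ : Fin 23 → ℤ) + r2 • (v₂ : Fin 23 → ℤ)) +
    (1 : ℤ) • (r3 • (v₃ : Fin 23 → ℤ) + r4 • (v₄ : Fin 23 → ℤ)), k, ?_, ?_, ?_⟩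
  · exact H.isHodge_add (H.isHodge_smul _ (H.isHodge_add (H.isHodge_smul _ v₁.2)
      (H.isHodge_smul _ v₂.2))) (H.isHodge_smul _ (H.isHodge_add (H.isHodge_smul _ v₃.2)
      (H.isHodge_smul _ v₄.2)))
  · rintro rfl
    exact ht (by rw [hk, mul_zero])
  · rw [disc_comb2 hH, disc_comb2 hH, disc_comb2 hH, e12, e34]
    have e : D H (r1 • (v₁ : Fin 23 → ℤ) + r2 • (v₂ : Fin 23 → ℤ))
        (r3 • (v₃ : Fin 23 → ℤ) + r4 • (v₄ : Fin 23 → ℤ)) = 0 := by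
      rw [D_add_left, D_smul_left, D_smul_left, D_add_right hH, D_smul_right hH, D_smul_right hH,
        D_add_right hH, D_smul_right hH, D_smul_right hH, e13, e14, e23, e24]
      ring
    rw [e]
    have h5 : 2 * (2 * k ^ 2) = t ^ 2 := by rw [hk]; ring
    rw [← he] at h5
    linarith

/-- **Rank five.** -/
theorem hilb_iff_five (hH : H.IsCubic) (hr : 5 ≤ Module.finrank ℤ H.hodge) :
    (IsHilb H ↔ H.HasK3) ∧ (IsHilb H ↔ Local H) := by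
  obtain ⟨v, k, hv, hk, hd⟩ := exists_twice_square hH hr
  exact hilb_iff hH (by omega) hv hk hd

end Pool.Agent.Q53.LFM
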